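import Mathlib
import Pool.Agent.H.MP_75c11f_co.Defs
import Pool.Agent.H.MP_75c11f_co.Main
import Pool.Agent.H.MP_75c11f_co.Num

set_option autoImplicit false

namespace Pool.Agent.Results.MP_75c11f_co.Super

open Finset Pool.Agent.H.MP_75c11f_co
open Pool.Agent.H.MP_269158_co

lemma enc (h m k : ℕ) (hk : k = h + m) (f : L k) : ∃ x : W h, x.2.1.length = m ∧
    x.2.2.length = m ∧ (word x).length = k + k ∧ cnt (word x) = k ∧
    parts (word x) = List.ofFn fun i => (f.1 (Fin.rev i) : ℕ) := by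
  obtain ⟨x, h1, h2⟩ := parts_surj (List.ofFn fun i => (f.1 (Fin.rev i) : ℕ))
    (List.pairwise_ofFn.2 fun i j h => f.2 (Fin.rev_le_rev.2 h.le)) k (by
      simp only [List.mem_ofFn]
      rintro _ ⟨i, rfl⟩
      exact Nat.le_of_lt_succ (f.1 _).2)
  have l := parts_len x
  rw [h2, List.length_ofFn] at l
  obtain ⟨z, u, rfl, hu, e⟩ := glue_surj h (m + m) x (by omega)
  have w : word (z.get, u.take m, u.drop m) = x := by
    rw [word, List.ofFn_get, List.take_append_drop, e]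
  exact ⟨(z.get, u.take m, u.drop m), by simp [hu], by simp [hu], by rw [w]; omega, w ▸ h1, w ▸ h2⟩

lemma main (h m k : ℕ) (hk : k = h + m) (h0 : 20 ≤ h) (h1 : h ≤ m) (h2 : m ≤ h + 1)
    (ev : 16 * (3 * h) ^ 4 * 49 ^ h * 4 ^ (h / 10) ≤ 64 ^ h) (U : Finset (L k))
    (hU : (2000 * (2 * k).choose k) ^ 2 ≤ #U ^ 2 * k ^ 3) : k ^ 2 * #U ≤ 1280 * e U := by
  classical
  choose Y y1 y2 y3 y4 y5 using enc h m k hk
  have le : ∀ f g, (∀ t, H (word (Y f)) t ≤ H (word (Y g)) t) → f ≤ g := fun f g a i => by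
    have := parts_mono (by rw [y3, y3]) (by rw [y4, y4]) a (Fin.rev i) (by simp [y5]; omega)
    rw [y5, y5, List.getD_eq_getElem _ _ (by simp; omega),
      List.getD_eq_getElem _ _ (by simp; omega), List.getElem_ofFn, List.getElem_ofFn] at this
    rw [← Fin.rev_rev i]
    exact this
  have inj : Function.Injective Y := fun f g a =>
    le_antisymm (le _ _ fun _ => by rw [a]) (le _ _ fun _ => by rw [a])
  let V := (U.image Y).filter fun x => h / 10 ≤ low x.1
  have c := core h m (h / 10) k (by omega) (by omega) V fun x hx => by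
    obtain ⟨a, b⟩ := mem_filter.1 hx
    obtain ⟨f, -, rfl⟩ := mem_image.1 a
    exact ⟨y1 f, y2 f, b, y4 f⟩
  have p : #{p ∈ V ×ˢ V | p.1 ≠ p.2 ∧ Cmp p.1 p.2} ≤ 2 * e U := by
    rw [two_mul]
    refine (card_le_card (t := ((U ×ˢ U).filter fun q => q.1 < q.2).image
      (fun q => (Y q.1, Y q.2)) ∪ ((U ×ˢ U).filter fun q => q.1 < q.2).image
      fun q => (Y q.2, Y q.1)) ?_).trans ((card_union_le _ _).trans
      (Nat.add_le_add (card_image_le.trans ?_) (card_image_le.trans ?_)))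
    · rintro ⟨x, y⟩ hp
      simp only [V, mem_filter, mem_product, mem_image] at hp
      obtain ⟨⟨⟨⟨f, hf, rfl⟩, -⟩, ⟨g, hg, rfl⟩, -⟩, n, a⟩ := hp
      have n' : f ≠ g := fun b => n (by rw [b])
      rcases a with a | a
      · exact mem_union_left _ (mem_image.2 ⟨(f, g), mem_filter.2 ⟨mem_product.2 ⟨hf, hg⟩,
          lt_of_le_of_ne (le _ _ a) n'⟩, rfl⟩)
      · exact mem_union_right _ (mem_image.2 ⟨(g, f), mem_filter.2 ⟨mem_product.2 ⟨hg, hf⟩,
          lt_of_le_of_ne (le _ _ a) n'.symm⟩, rfl⟩)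
    all_goals exact le_of_eq (by rw [e])
  have b : #U ≤ #V + #{z : Fin h → Bool × Bool | low z < h / 10} * (2 ^ m * 2 ^ m) := by
    rw [← card_image_of_injective U inj,
      ← card_filter_add_card_filter_not fun x : W h => h / 10 ≤ low x.1, ← card_all,
      ← card_product, ← card_product]
    refine Nat.add_le_add_left (card_le_card fun x hx => ?_) _
    obtain ⟨a, b⟩ := mem_filter.1 hx
    obtain ⟨f, -, rfl⟩ := mem_image.1 a
    simp only [mem_product, mem_filter, mem_univ, true_and, mem_all]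
    exact ⟨by omega, y1 f, y2 f⟩
  have t := tb h m (by omega) h1 h2
  have r := bb h m _ (by omega) h2 ev (few_low h (h / 10))
  rw [← hk] at t r
  have k0 : 0 < k ^ 3 := pow_pos (by omega) _
  generalize (m + 1).choose ((m + 1) / 2) * (16 * (2 * h).choose h * 2 ^ m * (2 * m + 3)) = T at *
  generalize #{z : Fin h → Bool × Bool | low z < h / 10} * (2 ^ m * 2 ^ m) = B at *
  have r' : 2 * B ≤ #U := (Nat.pow_le_pow_iff_left two_ne_zero).1
    (Nat.le_of_mul_le_mul_right (r.trans (le_trans (by nlinarith) hU)) k0)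
  have t' : 4 * T ≤ (m + 2) ^ 2 * #U := (Nat.pow_le_pow_iff_left two_ne_zero).1
    (Nat.le_of_mul_le_mul_right (t.trans ((Nat.mul_le_mul_left _ hU).trans_eq (by ring))) k0)
  have v : #U ≤ 2 * #V := by omega
  have s : (m + 2) * (h / 10 * (m + 2) * #U) ≤ (m + 2) * (16 * e U) := by
    nlinarith [Nat.mul_le_mul_left (h / 10) t', Nat.mul_le_mul_left (h / 10 * (m + 2) ^ 2) v,
      Nat.mul_le_mul_left (m + 2) p]
  have s' := Nat.le_of_mul_le_mul_left s (by omega)
  have q : k * k ≤ 40 * (h / 10) * (2 * (m + 2)) := Nat.mul_le_mul (by omega) (by omega)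
  nlinarith [Nat.mul_le_mul_right #U q]

theorem result : ∃ c₁ c₂ : ℝ, 0 < c₁ ∧ 0 < c₂ ∧ ∃ k₀ : ℕ, ∀ k : ℕ, k₀ ≤ k → ∀ U : Finset (L k),
    c₁ * (k : ℝ) ^ (-(3 / 2) : ℝ) * (2 * k).choose k ≤ U.card →
      c₂ * (k : ℝ) ^ 2 * U.card ≤ e U := by
  obtain ⟨h₀, hh⟩ := ev
  refine ⟨2000, 1 / 1280, by norm_num, by norm_num, 2 * h₀ + 40, fun k hk U hU => ?_⟩
  have k0 : (0 : ℝ) < k := by exact_mod_cast (by omega : 0 < k)
  have a := main (k / 2) (k - k / 2) k (by omega) (by omega) (by omega) (by omega)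
    (hh _ (by omega)) U (by
      have b : ((k : ℝ) ^ (-(3 / 2) : ℝ)) ^ 2 * k ^ 3 = 1 := by
        rw [← Real.rpow_natCast _ 2, ← Real.rpow_natCast _ 3, ← Real.rpow_mul k0.le,
          ← Real.rpow_add k0]
        norm_num
      have c := mul_le_mul_of_nonneg_right (pow_le_pow_left₀ (by positivity) hU 2)
        (pow_pos k0 3).le
      have d : ((2000 * ((2 * k).choose k : ℕ)) ^ 2 : ℝ) ≤ (U.card : ℝ) ^ 2 * k ^ 3 := by
        refine le_of_eq_of_le ?_ c
        linear_combination (-(2000 * ((2 * k).choose k : ℕ) : ℝ) ^ 2) * b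
      exact_mod_cast d)
  have : ((k : ℝ) ^ 2 * U.card) ≤ 1280 * e U := by exact_mod_cast a
  linarith

end Pool.Agent.Results.MP_75c11f_co.Super
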